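import Mathlib
import Pool.Agent.GrP.Sgn
import Pool.Agent.GrC.Core

/-!
The signed Koszul differential in coordinates, and its decomposition with respect to the two largest indices
`a < b`.
-/

set_option autoImplicit false

namespace Pool.Agent.GrD

open Finset Pool.Agent.GrC Pool.Agent.GrP

/-- `∂ z T = ∑ j ∈ J \ T, (-1)^#{t ∈ T, t < j} e j * z (T ∪ {j})`. -/
def dF {F : Type*} [Field F] {n : ℕ} (J : Finset (Fin n)) (e : Fin n → F)
    (z : Finset (Fin n) → F) (T : Finset (Fin n)) : F :=
  ∑ j ∈ J \ T, sg F j T * (e j * z (insert j T))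

/-- `(-1)^(∑_(r ∈ R) rank r)`, `rank r = #{s ∈ J, s < r}`. -/
def ep (F : Type*) [Field F] {n : ℕ} (J R : Finset (Fin n)) : F :=
  (-1) ^ (∑ r ∈ R, (J.filter (· < r)).card)

variable {F : Type*} [Field F] {n : ℕ} {J : Finset (Fin n)} {e : Fin n → F}

private lemma ds_sg_sq (j : Fin n) (T : Finset (Fin n)) : sg F j T * sg F j T = 1 := by
  unfold sg
  rw [← pow_add, ← two_mul, pow_mul]
  norm_num

private lemma ds_sg_lt {j l : Fin n} {T : Finset (Fin n)} (hj : j ∉ T) (h : j < l) :
    sg F l (insert j T) = - sg F l T := by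
  unfold sg
  rw [filter_insert, if_pos h, card_insert_of_notMem (fun h' => hj (mem_filter.mp h').1), pow_succ]
  ring

private lemma ds_sg_not {j l : Fin n} {T : Finset (Fin n)} (h : ¬ j < l) :
    sg F l (insert j T) = sg F l T := by
  unfold sg
  rw [filter_insert, if_neg h]

private lemma ds_sg_top {l : Fin n} {T : Finset (Fin n)} (h : ∀ t ∈ T, t < l) :
    sg F l T = (-1) ^ T.card := by
  unfold sg
  rw [filter_true_of_mem h]

lemma dF_add (z w : Finset (Fin n) → F) (T : Finset (Fin n)) :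
    dF J e (fun S => z S + w S) T = dF J e z T + dF J e w T := by
  unfold dF
  rw [← Finset.sum_add_distrib]
  exact Finset.sum_congr rfl (fun j _ => by ring)

lemma dF_mul (c : F) (z : Finset (Fin n) → F) (T : Finset (Fin n)) :
    dF J e (fun S => c * z S) T = c * dF J e z T := by
  unfold dF
  rw [Finset.mul_sum]
  exact Finset.sum_congr rfl (fun j _ => by ring)

lemma dF_congr {z w : Finset (Fin n) → F} (h : ∀ S ⊆ J, z S = w S) {T : Finset (Fin n)}
    (hT : T ⊆ J) : dF J e z T = dF J e w T := by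
  unfold dF
  refine Finset.sum_congr rfl (fun j hj => ?_)
  rw [h (insert j T) (insert_subset (mem_sdiff.mp hj).1 hT)]

/-- For `j < l`: `sg l (T ∪ j) = - sg l T`, `sg j (T ∪ l) = sg j T`; the terms `(j, l)` and `(l, j)` cancel. -/
theorem dF_dF (z : Finset (Fin n) → F) (T : Finset (Fin n)) : dF J e (dF J e z) T = 0 := by
  unfold dF
  have h1 : ∑ j ∈ J \ T, sg F j T * (e j * ∑ l ∈ J \ insert j T,
        sg F l (insert j T) * (e l * z (insert l (insert j T))))
      = ∑ p ∈ ((J \ T) ×ˢ (J \ T)).filter (fun p => p.1 ≠ p.2),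
        sg F p.1 T * (e p.1 * (sg F p.2 (insert p.1 T) * (e p.2 * z (insert p.2 (insert p.1 T))))) := by
    rw [Finset.sum_filter, Finset.sum_product]
    refine Finset.sum_congr rfl (fun j hj => ?_)
    rw [Finset.mul_sum, Finset.mul_sum, ← Finset.sum_filter]
    refine Finset.sum_congr ?_ (fun l _ => rfl)
    ext l
    simp only [Finset.mem_sdiff, Finset.mem_insert, Finset.mem_filter, not_or]
    constructor
    · rintro ⟨h1, h2, h3⟩
      exact ⟨⟨h1, h3⟩, fun h => h2 h.symm⟩
    · rintro ⟨⟨h1, h3⟩, h2⟩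
      exact ⟨h1, fun h => h2 h.symm, h3⟩
  rw [h1]
  refine Finset.sum_involution (fun p _ => p.swap) ?_ ?_ ?_ ?_
  · rintro ⟨j, l⟩ hp
    simp only [Finset.mem_filter, Finset.mem_product, mem_sdiff] at hp
    simp only [Prod.fst_swap, Prod.snd_swap]
    rw [insert_comm l j T]
    obtain ⟨⟨⟨_, hj⟩, ⟨_, hl⟩⟩, hne⟩ := hp
    have hs : sg F j T * sg F l (insert j T) + sg F l T * sg F j (insert l T) = 0 := by
      rcases lt_or_gt_of_ne hne with h | h
      · rw [ds_sg_lt hj h, ds_sg_not (not_lt.mpr h.le)]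
        ring
      · rw [ds_sg_lt hl h, ds_sg_not (not_lt.mpr h.le)]
        ring
    linear_combination (e j * e l * z (insert j (insert l T))) * hs
  · rintro ⟨j, l⟩ h _ hc
    simp only [Finset.mem_filter, Finset.mem_product] at h
    exact h.2 (Prod.ext_iff.mp hc).2
  · rintro ⟨j, l⟩ h
    simp only [Finset.mem_filter, Finset.mem_product, Prod.fst_swap, Prod.snd_swap] at h ⊢
    exact ⟨⟨h.1.2, h.1.1⟩, fun hc => h.2 hc.symm⟩
  · rintro ⟨j, l⟩ h
    rfl

/-- The sign of the complement: `sg j T · sg j (U \ j) = (-1)^(rank j)` for `U = J \ T`, `j ∈ U`. -/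
lemma sg_ep (T : Finset (Fin n)) (hT : T ⊆ J) (j : Fin n) (hj : j ∈ J \ T) :
    sg F j T * ep F J (insert j T) = ep F J T * sg F j ((J \ T).erase j) := by
  have hjT := (mem_sdiff.mp hj).2
  have e1 : ep F J (insert j T) = (-1) ^ (J.filter (· < j)).card * ep F J T := by
    unfold ep
    rw [sum_insert hjT, pow_add]
  have e2 : ((-1 : F)) ^ (J.filter (· < j)).card = sg F j T * sg F j ((J \ T).erase j) := by
    unfold sg
    rw [← pow_add]
    congr 1
    have h1 : ((J \ T).erase j).filter (· < j) = (J \ T).filter (· < j) := by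
      ext i
      simp only [mem_filter, mem_erase]
      constructor
      · rintro ⟨⟨_, h⟩, h'⟩
        exact ⟨h, h'⟩
      · rintro ⟨h, h'⟩
        exact ⟨⟨h'.ne, h⟩, h'⟩
    rw [h1, ← card_union_of_disjoint]
    · congr 1
      ext i
      simp only [mem_filter, mem_union, mem_sdiff]
      constructor
      · rintro ⟨h, h'⟩
        by_cases hi : i ∈ T
        · exact Or.inl ⟨hi, h'⟩
        · exact Or.inr ⟨⟨h, hi⟩, h'⟩
      · rintro (⟨h, h'⟩ | ⟨⟨h, _⟩, h'⟩)
        · exact ⟨hT h, h'⟩
        · exact ⟨h, h'⟩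
    · rw [disjoint_left]
      intro i h h'
      exact (mem_sdiff.mp (mem_filter.mp h').1).2 (mem_filter.mp h).1
  rw [e1, e2]
  linear_combination (sg F j ((J \ T).erase j) * ep F J T) * ds_sg_sq (F := F) j T

/-- `sg_ep` for `Q = T ∪ j`. -/
lemma ep_sg (Q : Finset (Fin n)) (hQ : Q ⊆ J) (j : Fin n) (hj : j ∈ Q) :
    ep F J (Q.erase j) * sg F j (Q.erase j) = ep F J Q * sg F j (J \ Q) := by
  have h1 := sg_ep (F := F) (Q.erase j) ((erase_subset j Q).trans hQ) j
    (mem_sdiff.mpr ⟨hQ hj, notMem_erase j Q⟩)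
  have h2 : (J \ Q.erase j).erase j = J \ Q := by
    ext i
    simp only [mem_erase, mem_sdiff, not_and]
    constructor
    · rintro ⟨h, h', h''⟩
      exact ⟨h', fun hi => h'' h hi⟩
    · rintro ⟨h, h'⟩
      exact ⟨fun hi => h' (hi ▸ hj), h, fun _ => h'⟩
  rw [insert_erase hj, h2] at h1
  have h3 := ds_sg_sq (F := F) j (Q.erase j)
  have h4 := ds_sg_sq (F := F) j (J \ Q)
  linear_combination (ep F J Q * sg F j (J \ Q)) * h3 - (sg F j (Q.erase j) * sg F j (J \ Q)) * h1 -
    (sg F j (Q.erase j) * ep F J (Q.erase j)) * h4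

lemma ep_mul_ep (R : Finset (Fin n)) : ep F J R * ep F J R = 1 := by
  unfold ep
  rw [← pow_add, ← two_mul, pow_mul]
  norm_num

section

variable {a b : Fin n}

lemma dF_J (hab : a < b) (htop : ∀ j ∈ JJ a b, j < a) (z : Finset (Fin n) → F)
    {T : Finset (Fin n)} (hT : T ⊆ JJ a b) : dF univ e z T =
      dF (JJ a b) e z T + (-1) ^ T.card * (e a * z (insert a T) + e b * z (insert b T)) := by
  unfold dF
  have ha := a_notMem hT
  have hb := b_notMem hT
  have h1 : univ \ T = insert a (insert b (JJ a b \ T)) := by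
    ext i
    simp only [mem_sdiff, mem_univ, true_and, mem_insert, mem_JJ]
    by_cases hia : i = a
    · subst hia; simp [ha]
    · by_cases hib : i = b
      · subst hib; simp [hb]
      · simp [hia, hib]
  have h2 : sg F a T = (-1) ^ T.card := ds_sg_top fun t ht => htop t (hT ht)
  have h3 : sg F b T = (-1) ^ T.card := ds_sg_top fun t ht => (htop t (hT ht)).trans hab
  rw [h1, sum_insert, sum_insert, h2, h3]
  · ring
  · simp [b_notMem_JJ]
  · simp [a_notMem_JJ, hab.ne]

lemma dF_a (hab : a < b) (htop : ∀ j ∈ JJ a b, j < a) (z : Finset (Fin n) → F)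
    {T : Finset (Fin n)} (hT : T ⊆ JJ a b) : dF univ e z (insert a T) =
      dF (JJ a b) e (fun S => z (insert a S)) T -
        (-1) ^ T.card * (e b * z (insert a (insert b T))) := by
  unfold dF
  have ha := a_notMem hT
  have hb := b_notMem hT
  have h1 : univ \ insert a T = insert b (JJ a b \ T) := by
    ext i
    simp only [mem_sdiff, mem_univ, true_and, mem_insert, mem_JJ]
    by_cases hia : i = a
    · subst hia; simp [hab.ne]
    · by_cases hib : i = b
      · subst hib; simp [hb, hab.ne']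
      · simp [hia, hib]
  have h3 : sg F b (insert a T) = - (-1) ^ T.card := by
    rw [ds_sg_lt ha hab, ds_sg_top fun t ht => (htop t (hT ht)).trans hab]
  have h4 : ∑ j ∈ JJ a b \ T, sg F j (insert a T) * (e j * z (insert j (insert a T))) =
      ∑ j ∈ JJ a b \ T, sg F j T * (e j * z (insert a (insert j T))) := by
    refine sum_congr rfl fun j hj => ?_
    rw [ds_sg_not (not_lt.mpr (htop j (mem_sdiff.mp hj).1).le), insert_comm j a T]
  rw [h1, sum_insert (by simp [b_notMem_JJ]), h3, h4, insert_comm b a T]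
  ring

lemma dF_b (hab : a < b) (htop : ∀ j ∈ JJ a b, j < a) (z : Finset (Fin n) → F)
    {T : Finset (Fin n)} (hT : T ⊆ JJ a b) : dF univ e z (insert b T) =
      dF (JJ a b) e (fun S => z (insert b S)) T +
        (-1) ^ T.card * (e a * z (insert a (insert b T))) := by
  unfold dF
  have ha := a_notMem hT
  have hb := b_notMem hT
  have h1 : univ \ insert b T = insert a (JJ a b \ T) := by
    ext i
    simp only [mem_sdiff, mem_univ, true_and, mem_insert, mem_JJ]
    by_cases hia : i = a
    · subst hia; simp [hab.ne, ha]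
    · by_cases hib : i = b
      · subst hib; simp [hab.ne']
      · simp [hia, hib]
  have h3 : sg F a (insert b T) = (-1) ^ T.card := by
    rw [ds_sg_not (not_lt.mpr hab.le), ds_sg_top fun t ht => htop t (hT ht)]
  have h4 : ∑ j ∈ JJ a b \ T, sg F j (insert b T) * (e j * z (insert j (insert b T))) =
      ∑ j ∈ JJ a b \ T, sg F j T * (e j * z (insert b (insert j T))) := by
    refine sum_congr rfl fun j hj => ?_
    rw [ds_sg_not (not_lt.mpr ((htop j (mem_sdiff.mp hj).1).trans hab).le), insert_comm j b T]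
  rw [h1, sum_insert (by simp [a_notMem_JJ]), h3, h4]
  ring

lemma dF_ab (hab : a < b) (htop : ∀ j ∈ JJ a b, j < a) (z : Finset (Fin n) → F)
    {T : Finset (Fin n)} (hT : T ⊆ JJ a b) : dF univ e z (insert a (insert b T)) =
      dF (JJ a b) e (fun S => z (insert a (insert b S))) T := by
  unfold dF
  have h1 : univ \ insert a (insert b T) = JJ a b \ T := by
    ext i
    simp only [mem_sdiff, mem_univ, true_and, mem_insert, mem_JJ]
    by_cases hia : i = a
    · subst hia; simp
    · by_cases hib : i = b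
      · subst hib; simp
      · simp [hia, hib]
  rw [h1]
  refine sum_congr rfl fun j hj => ?_
  have hja := htop j (mem_sdiff.mp hj).1
  rw [ds_sg_not (not_lt.mpr hja.le), ds_sg_not (not_lt.mpr (hja.trans hab).le),
    insert_comm j a, insert_comm j b]

end

/-- Change of the order of summation: `(S, j)`, `j ∉ S`, against `(U, j)`, `j ∈ U`, `U = S ∪ j`. -/
theorem sum_swap {M : Type*} [AddCommMonoid M] (i : ℕ) (G : Finset (Fin n) → Fin n → M) :
    ∑ S ∈ powersetCard i J, ∑ j ∈ J \ S, G S j =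
      ∑ U ∈ powersetCard (i + 1) J, ∑ j ∈ U, G (U.erase j) j := by
  rw [sum_sigma', sum_sigma']
  refine sum_bij' (fun p _ => ⟨insert p.2 p.1, p.2⟩) (fun p _ => ⟨p.1.erase p.2, p.2⟩) ?_ ?_ ?_ ?_ ?_
  · rintro ⟨S, j⟩ h
    simp only [mem_sigma, mem_powersetCard, mem_sdiff] at h ⊢
    obtain ⟨⟨h1, h2⟩, h3, h4⟩ := h
    exact ⟨⟨insert_subset h3 h1, by rw [card_insert_of_notMem h4, h2]⟩, mem_insert_self _ _⟩
  · rintro ⟨U, j⟩ h
    simp only [mem_sigma, mem_powersetCard, mem_sdiff] at h ⊢
    obtain ⟨⟨h1, h2⟩, h3⟩ := h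
    exact ⟨⟨(erase_subset j U).trans h1, by rw [card_erase_of_mem h3, h2]; rfl⟩, h1 h3, notMem_erase j U⟩
  · rintro ⟨S, j⟩ h
    simp only [mem_sigma, mem_powersetCard, mem_sdiff] at h
    simp only [erase_insert h.2.2]
  · rintro ⟨U, j⟩ h
    simp only [mem_sigma, mem_powersetCard] at h
    simp only [insert_erase h.2]
  · rintro ⟨S, j⟩ h
    simp only [mem_sigma, mem_powersetCard, mem_sdiff] at h
    simp only [erase_insert h.2.2]

end Pool.Agent.GrD
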