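import Mathlib
import Pool.Agent.GrP.SLink
import Pool.Agent.GrC.Final
import Pool.Agent.GrD.DS

/-!
`kDim` in coordinates (any characteristic).
-/

set_option autoImplicit false

namespace Pool.Agent.GrD

open Finset Module Polynomial Pool.Agent.GrC Pool.Agent.GrP

private lemma Lnk_sg {k F ι : Type*} [Field k] [Field F] [Algebra k F] [LinearOrder ι] (j : ι)
    (T : Finset ι) (c : F) : sg F j T * c = sg k j T • c := by
  rw [Algebra.smul_def]
  unfold sg
  rw [map_pow, map_neg, map_one]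

variable {k F : Type*} [Field k] [Field F] [Algebra k F] [Algebra k[X] F] [Algebra (RatFunc k) F]
  {n : ℕ} (b : Basis (Fin n) k (GrS.HK k F 1))

/-- As `CFF_kos`, with signs (`CF_kosS`). -/
theorem CFF_kosS (i q : ℕ) (t : GrS.KC k (GrS.HK k F 1) (GrS.HK k F q) (i + 1))
    (T : Finset (Fin n)) :
    CFF b i (q + 1) (GrS.kos (GrS.mulHK k F q) i t) T =
      dF univ (fun j => (b j : F)) (CFF b (i + 1) q t) T := by
  rw [CFF_apply, CF_kosS, Submodule.coe_sum]
  unfold dF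
  refine sum_congr rfl fun j _ => ?_
  exact (Lnk_sg (k := k) j T _).symm

/-- Proof: the quotient `ker / im` is finite-dimensional (`HK k F 1` is, so are the exterior powers), of dimension `0`, so
every cycle is a boundary; `CFF_kosS`, `CFF_surj`, `CFF_inj`, `CFF_mem` as in `kDim_eq`. -/
theorem exact_of_kDim (i : ℕ) (h : GrS.kDim k F i 0 = 0) :
    ∀ z ∈ Ch (GrS.HK k F) (Fin n) (i + 1) 1, (∀ T, dF univ (fun j => (b j : F)) z T = 0) →
      ∃ w ∈ Ch (GrS.HK k F) (Fin n) (i + 2) 0, ∀ T, z T = dF univ (fun j => (b j : F)) w T := by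
  intro z hz hdz
  have : Module.Finite k (GrS.HK k F 1) := Module.Finite.of_basis b
  have : Module.Finite k (ExtP k (GrS.HK k F 1) (i + 1)) :=
    Module.Finite.of_basis (bE b (i + 1))
  have hfin : Module.Finite k (GrS.KC k (GrS.HK k F 1) (GrS.HK k F 1) (i + 1)) := by
    change Module.Finite k (TensorProduct k (ExtP k (GrS.HK k F 1) (i + 1)) (GrS.HK k F 1))
    infer_instance
  obtain ⟨t, ht⟩ := CFF_surj b (i + 1) 1 hz
  have hker : GrS.kos (GrS.mulHK k F (0 + 1)) i t = 0 := by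
    apply CFF_inj b i (0 + 1 + 1)
    rw [map_zero]
    funext T
    rw [CFF_kosS b i (0 + 1) t T]
    change dF univ (fun j => (b j : F)) (CFF b (i + 1) 1 t) T = 0
    rw [ht]
    exact hdz T
  rw [GrS.kDim, GrS.koszulDim, GrS.homDim] at h
  have h1 := Module.finrank_zero_iff.1 h
  have h2 := Submodule.Quotient.subsingleton_iff.1 h1
  have h3 : (⟨t, hker⟩ : ↥(LinearMap.ker (GrS.kos (GrS.mulHK k F (0 + 1)) i))) ∈
      (LinearMap.range (GrS.kos (GrS.mulHK k F 0) (i + 1))).submoduleOf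
        (LinearMap.ker (GrS.kos (GrS.mulHK k F (0 + 1)) i)) := by
    rw [h2]
    trivial
  obtain ⟨u, hu⟩ := h3
  refine ⟨CFF b (i + 1 + 1) 0 u, CFF_mem b _ _ _, fun T => ?_⟩
  rw [← CFF_kosS, hu]
  change _ = CFF b (i + 1) 1 t T
  rw [ht]

theorem kDim_of_exact (i : ℕ)
    (h : ∀ z ∈ Ch (GrS.HK k F) (Fin n) (i + 1) 2, (∀ T, dF univ (fun j => (b j : F)) z T = 0) →
      ∃ w ∈ Ch (GrS.HK k F) (Fin n) (i + 2) 1, ∀ T, z T = dF univ (fun j => (b j : F)) w T) :
    GrS.kDim k F i 1 = 0 := by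
  rw [GrS.kDim, GrS.koszulDim, GrS.homDim]
  have h2 : (LinearMap.range (GrS.kos (GrS.mulHK k F 1) (i + 1))).submoduleOf
        (LinearMap.ker (GrS.kos (GrS.mulHK k F (1 + 1)) i)) = ⊤ := by
    rw [eq_top_iff]
    rintro ⟨t, ht⟩ -
    obtain ⟨w, hw, hwz⟩ := h (CFF b (i + 1) 2 t) (CFF_mem b _ _ _) (by
      intro T
      have h3 := CFF_kosS b i (1 + 1) t T
      rw [LinearMap.mem_ker.1 ht, map_zero] at h3
      exact h3.symm)
    obtain ⟨u, hu⟩ := CFF_surj b (i + 2) 1 hw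
    refine ⟨u, ?_⟩
    apply CFF_inj b (i + 1) (1 + 1)
    funext T
    rw [CFF_kosS b (i + 1) 1 u T]
    change dF univ (fun j => (b j : F)) (CFF b (i + 2) 1 u) T = CFF b (i + 1) 2 t T
    rw [hu, hwz T]
  have h1 : Subsingleton (↥(LinearMap.ker (GrS.kos (GrS.mulHK k F (1 + 1)) i)) ⧸
      (LinearMap.range (GrS.kos (GrS.mulHK k F 1) (i + 1))).submoduleOf
        (LinearMap.ker (GrS.kos (GrS.mulHK k F (1 + 1)) i))) :=
    Submodule.Quotient.subsingleton_iff.2 h2
  exact Module.finrank_zero_of_subsingleton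

end Pool.Agent.GrD
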