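import Mathlib
import Pool.Agent.GrD.DS

/-!
`K_(q+1,1) = 0` modulo the pencil.
-/

set_option autoImplicit false

namespace Pool.Agent.GrD

open Finset Pool.Agent.GrC Pool.Agent.GrP

section

variable {k F : Type*} [Field k] [Field F] [Algebra k F] {L : ℕ → Submodule k F} {x y : F}
    {ψ : F →ₗ[k] k} {n : ℕ} {a b : Fin n} {e : Fin n → F}

lemma dF_mem (hP : Pencil k L x y ψ) (he : ∀ i, e i ∈ L 1) {q : ℕ} {J : Finset (Fin n)}
    {z : Finset (Fin n) → F} (hz : ∀ S, z S ∈ L q) (T : Finset (Fin n)) :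
    dF J e z T ∈ L (1 + q) := by
  refine Submodule.sum_mem _ (fun j _ => ?_)
  have h1 : e j * z (insert j T) ∈ L (1 + q) := hP.mul_mem 1 q _ _ (he j) (hz _)
  rcases neg_one_pow_eq_or F (T.filter (· < j)).card with h | h
  · rw [sg, h, one_mul]
    exact h1
  · rw [sg, h, neg_one_mul]
    exact (L (1 + q)).neg_mem h1

lemma dF_zero {J : Finset (Fin n)} {z : Finset (Fin n) → F} {T : Finset (Fin n)}
    (h : ∀ j ∈ J \ T, z (insert j T) = 0) : dF J e z T = 0 := by
  refine sum_eq_zero (fun j hj => ?_)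
  rw [h j hj, mul_zero, mul_zero]

lemma dF_scale {J : Finset (Fin n)} {z w : Finset (Fin n) → F} {T : Finset (Fin n)} (c : F)
    (h : ∀ j ∈ J \ T, z (insert j T) = c * w (insert j T)) : dF J e z T = c * dF J e w T := by
  unfold dF
  rw [mul_sum]
  refine sum_congr rfl (fun j hj => ?_)
  rw [h j hj]
  ring

lemma sgn_sq (m : ℕ) : ((-1 : F) ^ m) * (-1) ^ m = 1 := by
  rw [← mul_pow]
  simp

end

/-- Proof (compare `exists_cycle` in GrC/Core).  Cut `z0` down to the `(q+1)`-subsets of `J = JJ a b` (zero elsewhere).  For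
`T ⊆ J`, `#T = q` write `dF J e z0 T = x u + y v`, `za T = -(-1)^q u`, `zb T = -(-1)^q v` (zero for other `T`).  From
`dF_dF`: `x dF za + y dF zb = 0` on the `T ⊆ J` with `#T = q - 1`; `hP.ex 1` gives `c`: `dF za T = y c`,
`dF zb T = - x c`; `zab T = (-1)^#T c`.  Then `z = glue a b z0 za zb zab` is a cycle (`dF_J`, `dF_a`, `dF_b`, `dF_ab`; the last
one since `y dF zab = ± dF (dF za) = 0`), so `z = dF univ e w`, `w ∈ Ch L _ (q+2) 0`, and `dF_J` for `R ⊆ J` is
the claim with `w0 = w` on the subsets of `J`, `α R = (-1)^#R w (R ∪ a)`, `β R = (-1)^#R w (R ∪ b)`. -/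
theorem stepA {k F : Type*} [Field k] [Field F] [Algebra k F] {L : ℕ → Submodule k F} {x y : F}
    {ψ : F →ₗ[k] k} (hP : Pencil k L x y ψ) {n : ℕ} {a b : Fin n} (hab : a < b)
    (htop : ∀ j ∈ JJ a b, j < a) {e : Fin n → F} (hea : e a = x) (heb : e b = y)
    (he : ∀ i, e i ∈ L 1) (hL0 : ∀ u ∈ L 0, ∃ c : k, u = algebraMap k F c) (q : ℕ)
    (hK : ∀ z ∈ Ch L (Fin n) (q + 1) 1, (∀ T, dF univ e z T = 0) →
      ∃ w ∈ Ch L (Fin n) (q + 2) 0, ∀ T, z T = dF univ e w T)
    (z0 : Finset (Fin n) → F) (h0 : ∀ S, z0 S ∈ L 1)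
    (h1 : ∀ T ⊆ JJ a b, T.card = q → ∃ u ∈ L 1, ∃ v ∈ L 1, dF (JJ a b) e z0 T = x * u + y * v) :
    ∃ w0 α β : Finset (Fin n) → k, ∀ R ⊆ JJ a b, R.card = q + 1 →
      z0 R = dF (JJ a b) e (fun S => algebraMap k F (w0 S)) R + x * algebraMap k F (α R) +
        y * algebraMap k F (β R) := by
  classical
  -- cut down
  set z1 : Finset (Fin n) → F := fun S => if S.card = q + 1 then z0 S else 0 with hz1
  have hz1L : ∀ S, z1 S ∈ L 1 := by
    intro S
    simp only [hz1]
    split_ifs
    · exact h0 S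
    · exact (L 1).zero_mem
  have hz1d : ∀ T, T.card = q → dF (JJ a b) e z1 T = dF (JJ a b) e z0 T := by
    intro T hT
    unfold dF
    refine sum_congr rfl (fun j hj => ?_)
    simp only [hz1]
    rw [card_insert_of_notMem (mem_sdiff.mp hj).2, hT, if_pos rfl]
  have hz1d0 : ∀ T, T.card ≠ q → dF (JJ a b) e z1 T = 0 := by
    intro T hT
    refine dF_zero (fun j hj => ?_)
    simp only [hz1]
    rw [if_neg]
    rw [card_insert_of_notMem (mem_sdiff.mp hj).2]
    omega
  -- the components with `a`, `b`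
  have hex : ∀ T : Finset (Fin n), ∃ β ∈ L 1, ∃ γ ∈ L 1, (T.card ≠ q → β = 0 ∧ γ = 0) ∧
      (T ⊆ JJ a b → dF (JJ a b) e z1 T + (-1) ^ T.card * (x * β + y * γ) = 0) := by
    intro T
    by_cases hc : T.card = q
    · by_cases hTJ : T ⊆ JJ a b
      · obtain ⟨u, hu, v, hv, h2⟩ := h1 T hTJ hc
        refine ⟨-((-1) ^ T.card * u), ?_, -((-1) ^ T.card * v), ?_, fun h => absurd hc h,
          fun _ => ?_⟩
        · rcases neg_one_pow_eq_or F T.card with h | h
          · rw [h, one_mul]; exact (L 1).neg_mem hu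
          · rw [h, neg_one_mul, neg_neg]; exact hu
        · rcases neg_one_pow_eq_or F T.card with h | h
          · rw [h, one_mul]; exact (L 1).neg_mem hv
          · rw [h, neg_one_mul, neg_neg]; exact hv
        · rw [hz1d T hc, h2]
          have h3 := sgn_sq (F := F) T.card
          linear_combination (-(x * u) - y * v) * h3
      · exact ⟨0, (L 1).zero_mem, 0, (L 1).zero_mem, fun _ => ⟨rfl, rfl⟩, fun h => absurd h hTJ⟩
    · refine ⟨0, (L 1).zero_mem, 0, (L 1).zero_mem, fun _ => ⟨rfl, rfl⟩, fun _ => ?_⟩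
      rw [hz1d0 T hc]
      ring
  choose β hβ γ hγ hβγ hd using hex
  -- the last component
  have hex2 : ∀ T : Finset (Fin n), ∃ h ∈ L 1, (T.card + 1 ≠ q → h = 0) ∧ (T ⊆ JJ a b →
      dF (JJ a b) e β T = y * ((-1) ^ T.card * h) ∧
      dF (JJ a b) e γ T = - (x * ((-1) ^ T.card * h))) := by
    intro T
    by_cases hTJ : T ⊆ JJ a b
    · have h2 : x * dF (JJ a b) e β T + y * dF (JJ a b) e γ T = 0 := by
        have h3 : dF (JJ a b) e (fun S => dF (JJ a b) e z1 S) T = 0 := dF_dF z1 T
        have h4 : dF (JJ a b) e (fun S => dF (JJ a b) e z1 S) T =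
            (-1) ^ T.card * dF (JJ a b) e (fun S => x * β S + y * γ S) T := by
          refine dF_scale _ (fun j hj => ?_)
          have h5 := hd _ (insert_subset (mem_sdiff.mp hj).1 hTJ)
          rw [card_insert_of_notMem (mem_sdiff.mp hj).2, pow_succ] at h5
          linear_combination h5
        rw [h4, dF_add, dF_mul, dF_mul] at h3
        rcases mul_eq_zero.mp h3 with h5 | h5
        · exact absurd h5 (pow_ne_zero _ (neg_ne_zero.mpr one_ne_zero))
        · exact h5
      obtain ⟨h, hh, h3, h4⟩ := hP.ex 1 _ _ (dF_mem hP he hβ T) (dF_mem hP he hγ T) h2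
      refine ⟨(-1) ^ T.card * h, ?_, fun hcard => ?_, fun _ => ⟨?_, ?_⟩⟩
      · rcases neg_one_pow_eq_or F T.card with h' | h'
        · rw [h', one_mul]; exact hh
        · rw [h', neg_one_mul]; exact (L 1).neg_mem hh
      · have h5 : dF (JJ a b) e β T = 0 := by
          refine dF_zero (fun j hj => ?_)
          refine (hβγ _ ?_).1
          rw [card_insert_of_notMem (mem_sdiff.mp hj).2]
          exact hcard
        rw [h5] at h3
        rw [(mul_eq_zero.mp h3.symm).resolve_left hP.y_ne, mul_zero]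
      · rw [← mul_assoc ((-1) ^ T.card), sgn_sq, one_mul]
        exact h3
      · rw [← mul_assoc ((-1) ^ T.card), sgn_sq, one_mul]
        exact h4
    · exact ⟨0, (L 1).zero_mem, fun _ => rfl, fun h => absurd h hTJ⟩
  choose h hh hhc hhd using hex2
  -- the cycle
  have hA1 : ∀ S, glue a b z1 β γ h S ∈ L 1 := by
    intro S
    unfold glue
    split_ifs
    · exact hh _
    · exact hβ _
    · exact hγ _
    · exact hz1L _
  have hA2 : ∀ S : Finset (Fin n), S.card ≠ q + 1 → glue a b z1 β γ h S = 0 := by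
    refine forall_four (a := a) (b := b) ?_ ?_ ?_ ?_
    · intro T hT hc
      rw [glue_J hT]
      simp only [hz1]
      rw [if_neg hc]
    · intro T hT hc
      rw [glue_a hab.ne hT]
      rw [card_insert_a hT] at hc
      exact (hβγ T (by omega)).1
    · intro T hT hc
      rw [glue_b hab.ne hT]
      rw [card_insert_b hT] at hc
      exact (hβγ T (by omega)).2
    · intro T hT hc
      rw [glue_ab hab.ne hT]
      rw [card_insert_ab hab.ne hT] at hc
      exact hhc T (by omega)
  have hA3 : ∀ T, dF univ e (glue a b z1 β γ h) T = 0 := by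
    refine forall_four (a := a) (b := b) ?_ ?_ ?_ ?_
    · intro T hT
      rw [dF_J hab htop _ hT, glue_a hab.ne hT, glue_b hab.ne hT, hea, heb,
        dF_congr (w := z1) (fun S hS => glue_J hS) hT]
      exact hd T hT
    · intro T hT
      rw [dF_a hab htop _ hT, glue_ab hab.ne hT, heb,
        dF_congr (w := β) (fun S hS => glue_a hab.ne hS) hT, (hhd T hT).1]
      ring
    · intro T hT
      rw [dF_b hab htop _ hT, glue_ab hab.ne hT, hea,
        dF_congr (w := γ) (fun S hS => glue_b hab.ne hS) hT, (hhd T hT).2]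
      ring
    · intro T hT
      rw [dF_ab hab htop _ hT, dF_congr (w := h) (fun S hS => glue_ab hab.ne hS) hT]
      have h2 : dF (JJ a b) e (fun S => dF (JJ a b) e β S) T = 0 := dF_dF β T
      have h3 : dF (JJ a b) e (fun S => dF (JJ a b) e β S) T =
          (-((-1) ^ T.card * y)) * dF (JJ a b) e h T := by
        refine dF_scale _ (fun j hj => ?_)
        have h5 := (hhd _ (insert_subset (mem_sdiff.mp hj).1 hT)).1
        rw [card_insert_of_notMem (mem_sdiff.mp hj).2, pow_succ] at h5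
        rw [h5]
        ring
      rw [h3] at h2
      rcases mul_eq_zero.mp h2 with h4 | h4
      · exfalso
        rw [neg_eq_zero] at h4
        rcases mul_eq_zero.mp h4 with h5 | h5
        · exact absurd h5 (pow_ne_zero _ (neg_ne_zero.mpr one_ne_zero))
        · exact hP.y_ne h5
      · exact h4
  obtain ⟨w, hw, hzw⟩ := hK (glue a b z1 β γ h) ⟨hA1, hA2⟩ hA3
  choose c hc using fun S => hL0 (w S) (hw.1 S)
  refine ⟨c, fun R => (-1) ^ R.card * c (insert a R), fun R => (-1) ^ R.card * c (insert b R), ?_⟩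
  intro R hR hcR
  have h2 := hzw R
  rw [glue_J hR, dF_J hab htop _ hR, hea, heb] at h2
  simp only [hz1] at h2
  rw [if_pos hcR] at h2
  rw [h2, map_mul, map_mul, map_pow, map_neg, map_one, ← hc, ← hc]
  have h3 : w = fun S => algebraMap k F (c S) := funext hc
  rw [← h3]
  ring

end Pool.Agent.GrD
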