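import Mathlib
import Pool.Agent.GrD.DS
import Pool.Agent.GrD.StepA

/-!
Duality modulo the pencil.
-/

set_option autoImplicit false

namespace Pool.Agent.GrD

open Finset Pool.Agent.GrC Pool.Agent.GrP

variable {k F : Type*} [Field k] [Field F] [Algebra k F] {L : ℕ → Submodule k F} {x y : F}
    {ψ : F →ₗ[k] k} {n : ℕ} {a b : Fin n} {e : Fin n → F}

lemma stepB_neg_one_mem (M : Submodule k F) (m : ℕ) {u : F} (hu : u ∈ M) :
    (-1) ^ m * u ∈ M := by
  rcases neg_one_pow_eq_or F m with h | h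
  · rw [h, one_mul]
    exact hu
  · rw [h, neg_one_mul]
    exact M.neg_mem hu

lemma stepB_sg_mem (M : Submodule k F) (j : Fin n) (T : Finset (Fin n)) {u : F} (hu : u ∈ M) :
    sg F j T * u ∈ M := stepB_neg_one_mem M _ hu

lemma stepB_ep_mem (M : Submodule k F) (J R : Finset (Fin n)) {u : F} (hu : u ∈ M) :
    ep F J R * u ∈ M := stepB_neg_one_mem M _ hu

lemma stepB_dF_mem (hP : Pencil k L x y ψ) (he : ∀ i, e i ∈ L 1) {q : ℕ}
    {z : Finset (Fin n) → F} (hz : ∀ S, z S ∈ L q) (J T : Finset (Fin n)) :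
    dF J e z T ∈ L (1 + q) :=
  Submodule.sum_mem _ (fun j _ => stepB_sg_mem _ j T (hP.mul_mem 1 q _ _ (he j) (hz _)))

/-- The pairing of the values at the `i`-subsets of `J` with the `e j`, composed with the differential. -/
lemma stepB_pair (f : Module.Dual k (Finset (Fin n) → Fin n → k)) (i : ℕ) (J : Finset (Fin n))
    (z : Finset (Fin n) → F) :
    f (fun S j => if S ⊆ J ∧ S.card = i then ψ (e j * z S) else 0) =
      ∑ S ∈ powersetCard i J,
        ψ ((∑ j, f (Pi.single S (Pi.single j 1)) • e j) * z S) := by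
  have h1 : (fun S j => if S ⊆ J ∧ S.card = i then ψ (e j * z S) else 0 :
      Finset (Fin n) → Fin n → k) = ∑ S ∈ powersetCard i J, ∑ j, ψ (e j * z S) •
        (Pi.single S (Pi.single j 1) : Finset (Fin n) → Fin n → k) := by
    funext T l
    rw [Finset.sum_apply, Finset.sum_apply]
    by_cases hT : T ⊆ J ∧ T.card = i
    · rw [if_pos hT, Finset.sum_eq_single T]
      · rw [Finset.sum_apply, Finset.sum_apply, Finset.sum_eq_single l]
        · simp
        · intro j _ hj
          simp [Ne.symm hj]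
        · intro hl
          exact absurd (mem_univ l) hl
      · intro S _ hS
        rw [Finset.sum_apply, Finset.sum_apply]
        refine Finset.sum_eq_zero fun j _ => ?_
        simp [Ne.symm hS]
      · intro h
        exact absurd (mem_powersetCard.mpr hT) h
    · rw [if_neg hT]
      refine (Finset.sum_eq_zero fun S hS => ?_).symm
      rw [Finset.sum_apply, Finset.sum_apply]
      refine Finset.sum_eq_zero fun j _ => ?_
      have hST : T ≠ S := by
        rintro rfl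
        exact hT (mem_powersetCard.mp hS)
      simp [hST]
  rw [h1, map_sum]
  refine Finset.sum_congr rfl fun S _ => ?_
  rw [map_sum, Finset.sum_mul, map_sum]
  refine Finset.sum_congr rfl fun j _ => ?_
  rw [map_smul, smul_mul_assoc, map_smul, smul_eq_mul, smul_eq_mul, mul_comm]

/-- Finite-dimensional duality.  Proof.  Let `W = Finset (Fin n) → Fin n → k` and
`Θ η (S) (j) = ψ (e j * η S)` if `S ⊆ J = JJ a b`, `#S = i`, `0` otherwise.  Let `Rg` be the subspace of the `Θ (dF J e ζ)` with all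
`ζ S ∈ L 1`.  If `Θ η ∈ Rg`, `Θ η = Θ (dF J e ζ)`, then for `S ⊆ J`, `#S = i` the element `η S - dF J e ζ S` of `L 2` is
orthogonal to all `e j`, so (`hsp`) to `L 1`, so in `x L₁ + y L₁` by `hP.right`: the claim.  Otherwise there is a functional `f` on
`W` which vanishes on `Rg` and not at `Θ η` (`Submodule.exists_le_ker_of_notMem`); `f v = ∑ S j, θ' S j v S j`; put
`θ S = ∑ j, θ' S j • e j ∈ L 1`, so `f (Θ η) = ∑ S ∈ powersetCard i J, ψ (θ S * η S)`, the same for `dF J e ζ`.  For `U ⊆ J`,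
`#U = i + 1`, `v ∈ L 1` take `ζ = v` at `U`, `0` elsewhere: with `sum_swap`: `ψ (v ∑_(j ∈ U) sg j (U \ j) e_j θ(U \ j)) = 0`, so `hP.right`
gives the hypothesis of `H`, and `H` is a contradiction. -/
theorem dual_fd (hP : Pencil k L x y ψ) (hea : e a = x) (heb : e b = y) (he : ∀ i, e i ∈ L 1)
    (hsp : ∀ u ∈ L 1, u ∈ Submodule.span k (Set.range e)) (i : ℕ)
    (η : Finset (Fin n) → F) (hη : ∀ S, η S ∈ L 2)
    (H : ∀ θ : Finset (Fin n) → F, (∀ S, θ S ∈ L 1) →
      (∀ U ⊆ JJ a b, U.card = i + 1 → ∃ u ∈ L 1, ∃ v ∈ L 1,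
        ∑ j ∈ U, sg F j (U.erase j) * (e j * θ (U.erase j)) = x * u + y * v) →
      ∑ S ∈ powersetCard i (JJ a b), ψ (θ S * η S) = 0) :
    ∃ ζ α β : Finset (Fin n) → F, (∀ S, ζ S ∈ L 1) ∧ (∀ S, α S ∈ L 1) ∧ (∀ S, β S ∈ L 1) ∧
      ∀ S ⊆ JJ a b, S.card = i → η S = dF (JJ a b) e ζ S + x * α S + y * β S := by
  classical
  set J : Finset (Fin n) := JJ a b with hJ
  let Θ : (Finset (Fin n) → F) → (Finset (Fin n) → Fin n → k) :=
    fun z S j => if S ⊆ J ∧ S.card = i then ψ (e j * z S) else 0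
  have hΘ : ∀ z S j, Θ z S j = if S ⊆ J ∧ S.card = i then ψ (e j * z S) else 0 :=
    fun _ _ _ => rfl
  have hΘadd : ∀ z w : Finset (Fin n) → F, Θ (fun S => z S + w S) = Θ z + Θ w := by
    intro z w
    funext S j
    show (if S ⊆ J ∧ S.card = i then ψ (e j * (z S + w S)) else 0) =
      (if S ⊆ J ∧ S.card = i then ψ (e j * z S) else 0) +
      (if S ⊆ J ∧ S.card = i then ψ (e j * w S) else 0)
    split_ifs
    · rw [mul_add, map_add]
    · rw [add_zero]
  have hΘsmul : ∀ (c : k) (z : Finset (Fin n) → F),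
      Θ (fun S => algebraMap k F c * z S) = c • Θ z := by
    intro c z
    funext S j
    show (if S ⊆ J ∧ S.card = i then ψ (e j * (algebraMap k F c * z S)) else 0) =
      c • (if S ⊆ J ∧ S.card = i then ψ (e j * z S) else 0)
    split_ifs
    · rw [← Algebra.smul_def, mul_smul_comm, map_smul]
    · rw [smul_zero]
  let Rg : Submodule k (Finset (Fin n) → Fin n → k) :=
    { carrier := {v | ∃ ζ : Finset (Fin n) → F, (∀ S, ζ S ∈ L 1) ∧ v = Θ (dF J e ζ)}
      zero_mem' := by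
        refine ⟨fun _ => 0, fun _ => (L 1).zero_mem, ?_⟩
        funext S j
        rw [hΘ]
        simp [dF]
      add_mem' := by
        rintro v w ⟨ζ, h1, rfl⟩ ⟨ξ, h2, rfl⟩
        refine ⟨fun S => ζ S + ξ S, fun S => (L 1).add_mem (h1 S) (h2 S), ?_⟩
        rw [← hΘadd]
        congr 1
        funext T
        exact (dF_add ζ ξ T).symm
      smul_mem' := by
        rintro c v ⟨ζ, h1, rfl⟩
        refine ⟨fun S => algebraMap k F c * ζ S, fun S => ?_, ?_⟩
        · show algebraMap k F c * ζ S ∈ L 1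
          rw [← Algebra.smul_def]
          exact (L 1).smul_mem c (h1 S)
        · rw [← hΘsmul]
          congr 1
          funext T
          exact (dF_mul (algebraMap k F c) ζ T).symm }
  have hRg : ∀ v, v ∈ Rg ↔ ∃ ζ : Finset (Fin n) → F, (∀ S, ζ S ∈ L 1) ∧ v = Θ (dF J e ζ) :=
    fun v => Iff.rfl
  -- `ψ (u w) = 0` for all `u ∈ L 1` from `ψ (e j w) = 0`
  have hspan : ∀ w : F, (∀ j, ψ (e j * w) = 0) → ∀ u ∈ L 1, ψ (u * w) = 0 := by
    intro w hw u hu
    have h1 := hsp u hu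
    clear hu
    induction h1 using Submodule.span_induction with
    | mem z hz =>
      obtain ⟨j, rfl⟩ := hz
      exact hw j
    | zero => rw [zero_mul, map_zero]
    | add p r _ _ hp hr => rw [add_mul, map_add, hp, hr, add_zero]
    | smul c p _ hp => rw [smul_mul_assoc, map_smul, hp, smul_zero]
  by_cases hmem : Θ η ∈ Rg
  · obtain ⟨ζ, hζ, hζ2⟩ := (hRg _).mp hmem
    have hex : ∀ S : Finset (Fin n), S ⊆ J ∧ S.card = i →
        ∃ p : F × F, p.1 ∈ L 1 ∧ p.2 ∈ L 1 ∧ η S - dF J e ζ S = x * p.1 + y * p.2 := by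
      intro S hS
      have h2 : η S - dF J e ζ S ∈ L 2 := (L 2).sub_mem (hη S) (stepB_dF_mem hP he hζ J S)
      have h3 : ∀ j, ψ (e j * (η S - dF J e ζ S)) = 0 := by
        intro j
        have h4 := congrFun (congrFun hζ2 S) j
        rw [hΘ, hΘ, if_pos hS, if_pos hS] at h4
        rw [mul_sub, map_sub, h4, sub_self]
      obtain ⟨u, hu, v, hv, h5⟩ := hP.right _ h2 (hspan _ h3)
      exact ⟨(u, v), hu, hv, h5⟩
    choose p hp1 hp2 hp3 using hex
    refine ⟨ζ, fun S => if h : S ⊆ J ∧ S.card = i then (p S h).1 else 0,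
      fun S => if h : S ⊆ J ∧ S.card = i then (p S h).2 else 0, hζ, fun S => ?_, fun S => ?_, ?_⟩
    · dsimp only
      split_ifs with h
      · exact hp1 S h
      · exact (L 1).zero_mem
    · dsimp only
      split_ifs with h
      · exact hp2 S h
      · exact (L 1).zero_mem
    · intro S hS1 hS2
      dsimp only
      rw [dif_pos ⟨hS1, hS2⟩, dif_pos ⟨hS1, hS2⟩]
      have h6 := hp3 S ⟨hS1, hS2⟩
      linear_combination h6
  · exfalso
    obtain ⟨f, hf1, hf2⟩ := Submodule.exists_le_ker_of_notMem hmem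
    set θ : Finset (Fin n) → F := fun S => ∑ j, f (Pi.single S (Pi.single j 1)) • e j with hθ
    have hθ1 : ∀ S, θ S ∈ L 1 := fun S =>
      Submodule.sum_mem _ (fun j _ => (L 1).smul_mem _ (he j))
    have hpair : ∀ z : Finset (Fin n) → F, f (Θ z) = ∑ S ∈ powersetCard i J, ψ (θ S * z S) :=
      fun z => stepB_pair f i J z
    apply hf1
    rw [hpair]
    refine H θ hθ1 ?_
    intro U hU hUc
    have hmem2 : ∑ j ∈ U, sg F j (U.erase j) * (e j * θ (U.erase j)) ∈ L 2 :=
      Submodule.sum_mem _ (fun j _ => stepB_sg_mem _ _ _ (hP.mul_mem 1 1 _ _ (he j) (hθ1 _)))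
    refine hP.right _ hmem2 ?_
    intro v hv
    set ζ : Finset (Fin n) → F := fun S => if S = U then v else 0 with hζ
    have hζ1 : ∀ S, ζ S ∈ L 1 := by
      intro S
      rw [hζ]
      dsimp only
      split_ifs
      · exact hv
      · exact (L 1).zero_mem
    have h0 : f (Θ (dF J e ζ)) = 0 := hf2 ((hRg _).mpr ⟨ζ, hζ1, rfl⟩)
    rw [hpair] at h0
    have h1 : ∀ S ∈ powersetCard i J, ψ (θ S * dF J e ζ S) =
        ∑ j ∈ J \ S, ψ (θ S * (sg F j S * (e j * ζ (insert j S)))) := by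
      intro S _
      rw [dF, Finset.mul_sum, map_sum]
    rw [Finset.sum_congr rfl h1,
      sum_swap i (fun S j => ψ (θ S * (sg F j S * (e j * ζ (insert j S))))),
      Finset.sum_eq_single U] at h0
    · rw [Finset.mul_sum, map_sum, ← h0]
      refine Finset.sum_congr rfl fun j hj => ?_
      rw [insert_erase hj, hζ]
      dsimp only
      rw [if_pos rfl]
      congr 1
      ring
    · intro U' _ hne
      refine Finset.sum_eq_zero fun j hj => ?_
      rw [insert_erase hj, hζ]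
      dsimp only
      rw [if_neg hne, mul_zero, mul_zero, mul_zero, map_zero]
    · intro hU'
      exact absurd (mem_powersetCard.mpr ⟨hU, hUc⟩) hU'

/-- Proof.  `dual_fd`; let `θ` be as in `H`, `J = JJ a b`, `z0 R = ep F J R * θ (J \ R)`.  By `sg_ep`, for `T ⊆ J`, `#T = q`,
`U = J \ T`: `dF J e z0 T = ep F J T * ∑_(j ∈ U) sg j (U \ j) e_j θ(U \ j) ∈ x L₁ + y L₁`.  `stepA` gives `w0`, `α`, `β`.
`∑_(S ∈ powersetCard i J) ψ (θ S η S) = ∑_(R ∈ powersetCard (q+1) J) ep(R) ψ (z0 R · η (J \ R))` (`R = J \ S`, `ep_mul_ep`)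
`= ∑_R ∑_(j ∈ J \ R) ep(R) sg j R w0(R ∪ j) ψ (e_j η (J \ R))` (`psi_x`, `psi_y`)
`= ∑_(Q ∈ powersetCard (q+2) J) ∑_(j ∈ Q) ep(Q \ j) sg j (Q \ j) w0(Q) ψ (e_j η ((J \ Q) ∪ j))` (`sum_swap`)
`= ∑_Q w0(Q) ep(Q) ψ (dF J e η (J \ Q)) = 0` (`ep_sg`). -/
theorem stepB (hP : Pencil k L x y ψ) (hab : a < b)
    (htop : ∀ j ∈ JJ a b, j < a) (hea : e a = x) (heb : e b = y) (he : ∀ i, e i ∈ L 1)
    (hsp : ∀ u ∈ L 1, u ∈ Submodule.span k (Set.range e))
    (hL0 : ∀ u ∈ L 0, ∃ c : k, u = algebraMap k F c) (q i : ℕ)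
    (hi : i + (q + 1) = (JJ a b).card)
    (hK : ∀ z ∈ Ch L (Fin n) (q + 1) 1, (∀ T, dF univ e z T = 0) →
      ∃ w ∈ Ch L (Fin n) (q + 2) 0, ∀ T, z T = dF univ e w T)
    (η : Finset (Fin n) → F) (hη : ∀ S, η S ∈ L 2)
    (hψ : ∀ T ⊆ JJ a b, T.card + 1 = i → ψ (dF (JJ a b) e η T) = 0) :
    ∃ ζ α β : Finset (Fin n) → F, (∀ S, ζ S ∈ L 1) ∧ (∀ S, α S ∈ L 1) ∧ (∀ S, β S ∈ L 1) ∧
      ∀ S ⊆ JJ a b, S.card = i → η S = dF (JJ a b) e ζ S + x * α S + y * β S := by
  classical
  refine dual_fd hP hea heb he hsp i η hη ?_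
  intro θ hθ hU
  set J : Finset (Fin n) := JJ a b with hJ
  set z0 : Finset (Fin n) → F := fun R => ep F J R * θ (J \ R) with hz0
  have h0 : ∀ S, z0 S ∈ L 1 := fun S => stepB_ep_mem _ _ _ (hθ _)
  have h1 : ∀ T ⊆ JJ a b, T.card = q →
      ∃ u ∈ L 1, ∃ v ∈ L 1, dF (JJ a b) e z0 T = x * u + y * v := by
    intro T hT hTc
    rw [← hJ] at hT ⊢
    obtain ⟨u, hu, v, hv, huv⟩ := hU (J \ T) sdiff_subset (by
      rw [card_sdiff_of_subset hT, hTc, ← hi]
      omega)
    refine ⟨ep F J T * u, stepB_ep_mem _ _ _ hu, ep F J T * v, stepB_ep_mem _ _ _ hv, ?_⟩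
    have h2 : dF J e z0 T = ep F J T *
        ∑ j ∈ J \ T, sg F j ((J \ T).erase j) * (e j * θ ((J \ T).erase j)) := by
      rw [dF, Finset.mul_sum]
      refine Finset.sum_congr rfl fun j hj => ?_
      have h3 := sg_ep (F := F) T hT j hj
      have h4 : J \ insert j T = (J \ T).erase j := by
        rw [sdiff_insert]
      rw [hz0]
      dsimp only
      rw [h4]
      linear_combination (e j * θ ((J \ T).erase j)) * h3
    rw [h2, huv]
    ring
  obtain ⟨w0, α, β, hw⟩ := stepA hP hab htop hea heb he hL0 q hK z0 h0 h1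
  rw [← hJ] at hw
  -- complements
  have hcompl : ∑ S ∈ powersetCard i J, ψ (θ S * η S) =
      ∑ R ∈ powersetCard (q + 1) J, ψ (θ (J \ R) * η (J \ R)) := by
    refine Finset.sum_bij' (fun S _ => J \ S) (fun R _ => J \ R) ?_ ?_ ?_ ?_ ?_
    · intro S hS
      have := mem_powersetCard.mp hS
      refine mem_powersetCard.mpr ⟨sdiff_subset, ?_⟩
      rw [card_sdiff_of_subset this.1, this.2, ← hi]
      omega
    · intro R hR
      have := mem_powersetCard.mp hR
      refine mem_powersetCard.mpr ⟨sdiff_subset, ?_⟩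
      rw [card_sdiff_of_subset this.1, this.2, ← hi]
      omega
    · intro S hS
      exact Finset.sdiff_sdiff_eq_self (mem_powersetCard.mp hS).1
    · intro R hR
      exact Finset.sdiff_sdiff_eq_self (mem_powersetCard.mp hR).1
    · intro S hS
      rw [Finset.sdiff_sdiff_eq_self (mem_powersetCard.mp hS).1]
  rw [hcompl]
  have h2 : ∀ R ∈ powersetCard (q + 1) J, ψ (θ (J \ R) * η (J \ R)) =
      ∑ j ∈ J \ R, ψ (ep F J R * (sg F j R * (e j * algebraMap k F (w0 (insert j R)))) *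
        η (J \ R)) := by
    intro R hR
    have hR' := mem_powersetCard.mp hR
    have h3 : θ (J \ R) = ep F J R * z0 R := by
      rw [hz0]
      dsimp only
      rw [← mul_assoc, ep_mul_ep, one_mul]
    rw [h3, hw R hR'.1 hR'.2]
    have hc : ∀ c : k, ep F J R * algebraMap k F c * η (J \ R) ∈ L 2 := by
      intro c
      rw [mul_assoc]
      refine stepB_ep_mem _ _ _ ?_
      rw [← Algebra.smul_def]
      exact (L 2).smul_mem c (hη _)
    have h4 : ep F J R * (dF J e (fun S => algebraMap k F (w0 S)) R +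
        x * algebraMap k F (α R) + y * algebraMap k F (β R)) * η (J \ R) =
        ep F J R * dF J e (fun S => algebraMap k F (w0 S)) R * η (J \ R) +
        x * (ep F J R * algebraMap k F (α R) * η (J \ R)) +
        y * (ep F J R * algebraMap k F (β R) * η (J \ R)) := by
      ring
    rw [h4, map_add, map_add, psi_x hP (hc _), psi_y hP (hc _), add_zero, add_zero, dF,
      Finset.mul_sum, Finset.sum_mul, map_sum]
  rw [Finset.sum_congr rfl h2, sum_swap (q + 1) (fun R j =>
    ψ (ep F J R * (sg F j R * (e j * algebraMap k F (w0 (insert j R)))) * η (J \ R)))]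
  refine Finset.sum_eq_zero fun Q hQ => ?_
  have hQ' := mem_powersetCard.mp hQ
  have hJQ : J \ (J \ Q) = Q := Finset.sdiff_sdiff_eq_self hQ'.1
  have hcard : (J \ Q).card + 1 = i := by
    have h5 := card_le_card hQ'.1
    rw [card_sdiff_of_subset hQ'.1, hQ'.2, ← hi]
    rw [hQ'.2, ← hi] at h5
    omega
  have h3 := hψ (J \ Q) sdiff_subset hcard
  have hcepw : ∃ c : k, ep F J Q * algebraMap k F (w0 Q) = algebraMap k F c := by
    rcases neg_one_pow_eq_or F (∑ r ∈ Q, (J.filter (· < r)).card) with h | h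
    · exact ⟨w0 Q, by rw [ep, h, one_mul]⟩
    · exact ⟨- w0 Q, by rw [ep, h, neg_one_mul, map_neg]⟩
  obtain ⟨c, hc⟩ := hcepw
  have h4 : ∑ j ∈ Q, ψ (ep F J (Q.erase j) * (sg F j (Q.erase j) *
      (e j * algebraMap k F (w0 (insert j (Q.erase j))))) * η (J \ Q.erase j)) =
      ψ (c • dF J e η (J \ Q)) := by
    rw [Algebra.smul_def, ← hc, dF, hJQ, Finset.mul_sum, map_sum]
    refine Finset.sum_congr rfl fun j hj => ?_
    congr 1
    have h5 := ep_sg (F := F) Q hQ'.1 j hj
    have h6 : J \ Q.erase j = insert j (J \ Q) := by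
      rw [sdiff_erase (hQ'.1 hj)]
    rw [insert_erase hj, h6]
    linear_combination (e j * algebraMap k F (w0 Q) * η (insert j (J \ Q))) * h5
  show ∑ j ∈ Q, ψ (ep F J (Q.erase j) * (sg F j (Q.erase j) *
      (e j * algebraMap k F (w0 (insert j (Q.erase j))))) * η (J \ Q.erase j)) = 0
  rw [h4, map_smul, h3, smul_zero]

end Pool.Agent.GrD
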