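import Mathlib
import Pool.Agent.GrD.DS
import Pool.Agent.GrD.StepB

/-!
`K_(i,2) = 0` from `K_(i,2) = 0` modulo the pencil.
-/

set_option autoImplicit false

namespace Pool.Agent.GrD

open Finset Pool.Agent.GrC Pool.Agent.GrP

section

variable {k F : Type*} [Field k] [Field F] [Algebra k F] {L : ℕ → Submodule k F} {n : ℕ}
  {e : Fin n → F}

lemma sgn_mem {q : ℕ} {u : F} (hu : u ∈ L q) (m : ℕ) : (-1) ^ m * u ∈ L q := by
  rcases neg_one_pow_eq_or F m with h | h
  · rw [h, one_mul]; exact hu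
  · rw [h, neg_one_mul]; exact (L q).neg_mem hu

lemma dF_sub {J : Finset (Fin n)} (z w : Finset (Fin n) → F) (T : Finset (Fin n)) :
    dF J e (fun S => z S - w S) T = dF J e z T - dF J e w T := by
  unfold dF
  rw [← sum_sub_distrib]
  exact sum_congr rfl (fun j _ => by ring)

end

/-- Proof (compare `boundary_of_Th` in GrC/Core).  `J = JJ a b`.  `dF_J` for `T ⊆ J`: `dF J e z T = ∓ (x z(T ∪ a) + y z(T ∪ b))`, so `ψ` of it is `0`
(`psi_x`, `psi_y`) and `stepB` (`η = z`) gives `ζ`, `α`, `β`.  `w1 = glue a b ζ' α' β' 0`, `ζ'` = `ζ` on the `(i+1)`-subsets, `α'`, `β'` =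
`(-1)^i α`, `(-1)^i β` on the `i`-subsets, `0` elsewhere, is in `Ch L _ (i+1) 1` and `dF univ e w1 T = z T` for `T ⊆ J`.
`z' = z - dF univ e w1` is a cycle (`dF_dF`) in `Ch L _ i 2`, zero on the subsets of `J`; so `x z'(T ∪ a) + y z'(T ∪ b) = 0` and
`hP.ex 1` gives `c T ∈ L 1`: `z'(T ∪ a) = y c T`, `z'(T ∪ b) = - x c T`, `c T = 0` if `#T + 1 ≠ i`.  `dF_a`: `y (dF J e c T - (-1)^#T z'(T ∪ a ∪ b)) = 0`.
`w2 = glue a b 0 0 0 (fun T => -(-1)^#T c T)`: `dF univ e w2 = z'`.  So `z = dF univ e (w1 + w2)`. -/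
theorem dual_main {k F : Type*} [Field k] [Field F] [Algebra k F] {L : ℕ → Submodule k F}
    {x y : F} {ψ : F →ₗ[k] k} (hP : Pencil k L x y ψ) {n : ℕ} {a b : Fin n} (hab : a < b)
    (htop : ∀ j ∈ JJ a b, j < a) {e : Fin n → F} (hea : e a = x) (heb : e b = y)
    (he : ∀ i, e i ∈ L 1) (hsp : ∀ u ∈ L 1, u ∈ Submodule.span k (Set.range e))
    (hL0 : ∀ u ∈ L 0, ∃ c : k, u = algebraMap k F c) (q i : ℕ)
    (hi : i + (q + 1) = (JJ a b).card)
    (hK : ∀ z ∈ Ch L (Fin n) (q + 1) 1, (∀ T, dF univ e z T = 0) →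
      ∃ w ∈ Ch L (Fin n) (q + 2) 0, ∀ T, z T = dF univ e w T) :
    ∀ z ∈ Ch L (Fin n) i 2, (∀ T, dF univ e z T = 0) →
      ∃ w ∈ Ch L (Fin n) (i + 1) 1, ∀ T, z T = dF univ e w T := by
  classical
  intro z hz hdz
  have hzJ : ∀ T ⊆ JJ a b, T.card + 1 = i → ψ (dF (JJ a b) e z T) = 0 := by
    intro T hT _
    have h1 := hdz T
    rw [dF_J hab htop z hT, hea, heb] at h1
    have h2 : dF (JJ a b) e z T = x * (-((-1) ^ T.card * z (insert a T))) +
        y * (-((-1) ^ T.card * z (insert b T))) := by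
      linear_combination h1
    rw [h2, map_add, psi_x hP ((L 2).neg_mem (sgn_mem (hz.1 _) _)),
      psi_y hP ((L 2).neg_mem (sgn_mem (hz.1 _) _)), add_zero]
  obtain ⟨ζ, α, β, hζ, hα, hβ, hzz⟩ := stepB hP hab htop hea heb he hsp hL0 q i hi hK z hz.1 hzJ
  -- the first correction
  set ζ' : Finset (Fin n) → F := fun S => if S.card = i + 1 then ζ S else 0 with hζ'
  set α' : Finset (Fin n) → F := fun S => if S.card = i then (-1) ^ i * α S else 0 with hα'
  set β' : Finset (Fin n) → F := fun S => if S.card = i then (-1) ^ i * β S else 0 with hβ'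
  set w1 : Finset (Fin n) → F := glue a b ζ' α' β' (fun _ => 0) with hw1
  have hw1L : ∀ S, w1 S ∈ L 1 := by
    intro S
    simp only [hw1, glue, hζ', hα', hβ']
    split_ifs
    · exact (L 1).zero_mem
    · exact sgn_mem (hα _) _
    · exact (L 1).zero_mem
    · exact sgn_mem (hβ _) _
    · exact (L 1).zero_mem
    · exact hζ _
    · exact (L 1).zero_mem
  have hw1c : ∀ S : Finset (Fin n), S.card ≠ i + 1 → w1 S = 0 := by
    refine forall_four (a := a) (b := b) ?_ ?_ ?_ ?_
    · intro T hT hc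
      rw [hw1, glue_J hT]
      simp only [hζ']
      rw [if_neg hc]
    · intro T hT hc
      rw [hw1, glue_a hab.ne hT]
      rw [card_insert_a hT] at hc
      simp only [hα']
      rw [if_neg (by omega)]
    · intro T hT hc
      rw [hw1, glue_b hab.ne hT]
      rw [card_insert_b hT] at hc
      simp only [hβ']
      rw [if_neg (by omega)]
    · intro T hT hc
      rw [hw1, glue_ab hab.ne hT]
  have hw1J : ∀ T ⊆ JJ a b, dF univ e w1 T = z T := by
    intro T hT
    rw [dF_J hab htop _ hT, hw1, glue_a hab.ne hT, glue_b hab.ne hT, hea, heb,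
      dF_congr (w := ζ') (fun S hS => glue_J hS) hT]
    by_cases hc : T.card = i
    · have h1 : dF (JJ a b) e ζ' T = dF (JJ a b) e ζ T := by
        unfold dF
        refine sum_congr rfl (fun j hj => ?_)
        simp only [hζ']
        rw [if_pos (by rw [card_insert_of_notMem (mem_sdiff.mp hj).2, hc])]
      simp only [hα', hβ']
      rw [h1, hzz T hT hc, if_pos hc, if_pos hc, hc]
      have h2 := sgn_sq (F := F) i
      linear_combination (x * α T + y * β T) * h2
    · have h1 : dF (JJ a b) e ζ' T = 0 := by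
        refine dF_zero (fun j hj => ?_)
        simp only [hζ']
        rw [if_neg]
        rw [card_insert_of_notMem (mem_sdiff.mp hj).2]
        omega
      simp only [hα', hβ']
      rw [h1, if_neg hc, if_neg hc, hz.2 T hc]
      ring
  -- the rest
  set z' : Finset (Fin n) → F := fun S => z S - dF univ e w1 S with hz'
  have hz'd : ∀ T, dF univ e z' T = 0 := by
    intro T
    rw [hz', dF_sub, hdz T, dF_dF]
    ring
  have hz'L : ∀ S, z' S ∈ L 2 := fun S => (L 2).sub_mem (hz.1 S) (dF_mem hP he hw1L S)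
  have hz'c : ∀ S, S.card ≠ i → z' S = 0 := by
    intro S hS
    simp only [hz']
    rw [hz.2 S hS, dF_zero, sub_zero]
    intro j hj
    apply hw1c
    rw [card_insert_of_notMem (mem_sdiff.mp hj).2]
    omega
  have hz'J : ∀ T ⊆ JJ a b, z' T = 0 := fun T hT => by
    simp only [hz']
    rw [hw1J T hT, sub_self]
  have hex : ∀ T : Finset (Fin n), ∃ c ∈ L 1, (T.card + 1 ≠ i → c = 0) ∧ (T ⊆ JJ a b →
      z' (insert a T) = y * c ∧ z' (insert b T) = -(x * c)) := by
    intro T
    by_cases hT : T ⊆ JJ a b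
    · have h1 := hz'd T
      rw [dF_J hab htop _ hT, hea, heb] at h1
      have h0 : dF (JJ a b) e z' T = 0 :=
        dF_zero (fun j hj => hz'J _ (insert_subset (mem_sdiff.mp hj).1 hT))
      rw [h0, zero_add] at h1
      have h2 : x * z' (insert a T) + y * z' (insert b T) = 0 := by
        rcases mul_eq_zero.mp h1 with h5 | h5
        · exact absurd h5 (pow_ne_zero _ (neg_ne_zero.mpr one_ne_zero))
        · exact h5
      obtain ⟨c, hc, h3, h4⟩ := hP.ex 1 _ _ (hz'L _) (hz'L _) h2
      refine ⟨c, hc, fun hcard => ?_, fun _ => ⟨h3, h4⟩⟩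
      rw [hz'c (insert a T) (by rw [card_insert_a hT]; exact hcard)] at h3
      exact (mul_eq_zero.mp h3.symm).resolve_left hP.y_ne
    · exact ⟨0, (L 1).zero_mem, fun _ => rfl, fun h => absurd h hT⟩
  choose c hc hcc hcd using hex
  have hcab : ∀ T ⊆ JJ a b, z' (insert a (insert b T)) = (-1) ^ T.card * dF (JJ a b) e c T := by
    intro T hT
    have h1 := hz'd (insert a T)
    rw [dF_a hab htop _ hT, heb] at h1
    have h2 : dF (JJ a b) e (fun S => z' (insert a S)) T = y * dF (JJ a b) e c T :=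
      dF_scale y (fun j hj => (hcd _ (insert_subset (mem_sdiff.mp hj).1 hT)).1)
    rw [h2] at h1
    have h3 : y * (dF (JJ a b) e c T - (-1) ^ T.card * z' (insert a (insert b T))) = 0 := by
      linear_combination h1
    have h4 := (mul_eq_zero.mp h3).resolve_left hP.y_ne
    have h5 := sgn_sq (F := F) T.card
    linear_combination (-(-1) ^ T.card) * h4 - z' (insert a (insert b T)) * h5
  set c' : Finset (Fin n) → F := fun T => -((-1) ^ T.card * c T) with hc'
  set w2 : Finset (Fin n) → F := glue a b (fun _ => 0) (fun _ => 0) (fun _ => 0) c' with hw2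
  have hw2L : ∀ S, w2 S ∈ L 1 := by
    intro S
    simp only [hw2, glue, hc']
    split_ifs
    · exact (L 1).neg_mem (sgn_mem (hc _) _)
    · exact (L 1).zero_mem
    · exact (L 1).zero_mem
    · exact (L 1).zero_mem
  have hw2c : ∀ S : Finset (Fin n), S.card ≠ i + 1 → w2 S = 0 := by
    refine forall_four (a := a) (b := b) ?_ ?_ ?_ ?_
    · intro T hT hc
      rw [hw2, glue_J hT]
    · intro T hT hc
      rw [hw2, glue_a hab.ne hT]
    · intro T hT hc
      rw [hw2, glue_b hab.ne hT]
    · intro T hT hcard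
      rw [hw2, glue_ab hab.ne hT]
      rw [card_insert_ab hab.ne hT] at hcard
      simp only [hc']
      rw [hcc T (by omega), mul_zero, neg_zero]
  have hd0 : ∀ T, dF (JJ a b) e (fun _ => (0 : F)) T = 0 := fun T => dF_zero (fun _ _ => rfl)
  have hw2d : ∀ T, dF univ e w2 T = z' T := by
    refine forall_four (a := a) (b := b) ?_ ?_ ?_ ?_
    · intro T hT
      rw [dF_J hab htop _ hT, hw2, glue_a hab.ne hT, glue_b hab.ne hT,
        dF_congr (w := fun _ => 0) (fun S hS => glue_J hS) hT, hd0, hz'J T hT]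
      ring
    · intro T hT
      rw [dF_a hab htop _ hT, hw2, glue_ab hab.ne hT,
        dF_congr (w := fun _ => 0) (fun S hS => glue_a hab.ne hS) hT, hd0, (hcd T hT).1, heb]
      simp only [hc']
      have h5 := sgn_sq (F := F) T.card
      linear_combination (y * c T) * h5
    · intro T hT
      rw [dF_b hab htop _ hT, hw2, glue_ab hab.ne hT,
        dF_congr (w := fun _ => 0) (fun S hS => glue_b hab.ne hS) hT, hd0, (hcd T hT).2, hea]
      simp only [hc']
      have h5 := sgn_sq (F := F) T.card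
      linear_combination (-(x * c T)) * h5
    · intro T hT
      rw [dF_ab hab htop _ hT, hw2, hcab T hT,
        dF_congr (w := c') (fun S hS => glue_ab hab.ne hS) hT]
      refine dF_scale _ (fun j hj => ?_)
      simp only [hc']
      rw [card_insert_of_notMem (mem_sdiff.mp hj).2, pow_succ]
      ring
  refine ⟨fun S => w1 S + w2 S, ⟨fun S => (L 1).add_mem (hw1L S) (hw2L S), fun S hS => ?_⟩, ?_⟩
  · simp only
    rw [hw1c S hS, hw2c S hS, add_zero]
  · intro T
    rw [dF_add, hw2d T]
    simp only [hz']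
    ring

end Pool.Agent.GrD
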