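import Mathlib
import Pool.Agent.GrD.Lnk
import Pool.Agent.GrD.StepC

/-!
`K_(q+1,1)(X, ω_X) = 0` implies `K_(g-3-q,2)(X, ω_X) = 0` for a smooth curve of genus `g`.
-/

set_option autoImplicit false

namespace Pool.Agent.GrD

open Finset Module Polynomial Pool.Agent.GrC

private lemma Main_perm {n : ℕ} (i j a b : Fin n) (hij : i ≠ j) (hab : a ≠ b) :
    ∃ σ : Fin n ≃ Fin n, σ i = a ∧ σ j = b := by
  classical
  refine ⟨(Equiv.swap i a).trans (Equiv.swap (Equiv.swap i a j) b), ?_, ?_⟩
  · rw [Equiv.trans_apply, Equiv.swap_apply_left]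
    refine Equiv.swap_apply_of_ne_of_ne ?_ hab
    intro h
    apply hij
    apply (Equiv.swap i a).injective
    rw [Equiv.swap_apply_left, ← h]
  · rw [Equiv.trans_apply, Equiv.swap_apply_left]

/-- Proof (compare `main_parity` in GrC/Final).  `GrS.HK = GrC.HK` (`HK_funext`), `exists_pencil`, `exists_basis_two`, reindexed such that
`e a = x`, `e b = y` for `a = N`, `b = N + 1` in `Fin (N + 2)`; `JJ a b` = the indices below `N`, of cardinality `N`.  `exact_of_kDim`,
`dual_main` with `i = N - q - 1`, `kDim_of_exact`.  `HK k F 0` = constants: `1 ⊓ 1`. -/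
theorem green_dual {k F : Type*} [Field k] [IsAlgClosed k] [Field F] [Algebra k F]
    [Algebra k[X] F] [Algebra (RatFunc k) F] [IsScalarTower k[X] (RatFunc k) F]
    [IsScalarTower k (RatFunc k) F] [IsScalarTower k k[X] F] [FiniteDimensional (RatFunc k) F]
    [Algebra.IsSeparable (RatFunc k) F] (N : ℕ) (hg : GrS.genus k F = N + 2) (q : ℕ)
    (hq : q + 2 ≤ N) (h : GrS.kDim k F q 0 = 0) : GrS.kDim k F (N - q - 2) 1 = 0 := by
  have hHK : GrS.HK k F = HK k F := GrS.HK_funext
  have hg' : genus k F = N + 2 := by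
    rw [← hg, genus, GrS.genus, hHK]
  obtain ⟨x, y, hli, ψ, hP⟩ := exists_pencil (k := k) (F := F) (by omega)
  rw [← hHK] at hP
  have hgen : finrank k (GrS.HK k F 1) = N + 2 := hg
  have : FiniteDimensional k (GrS.HK k F 1) := FiniteDimensional.of_finrank_pos (by omega)
  have hli' : LinearIndependent k ![(⟨x, hP.x_mem⟩ : GrS.HK k F 1), ⟨y, hP.y_mem⟩] := by
    apply LinearIndependent.of_comp (GrS.HK k F 1).subtype
    convert hli using 1
    funext a
    fin_cases a <;> rfl
  obtain ⟨b0, i0, j0, hij, hbi0, hbj0⟩ := exists_basis_two hgen (by omega) hli'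
  let a : Fin (N + 2) := ⟨N, by omega⟩
  let b : Fin (N + 2) := ⟨N + 1, by omega⟩
  have hab : a < b := by
    rw [Fin.lt_def]
    exact Nat.lt_succ_self N
  obtain ⟨σ, hσi, hσj⟩ := Main_perm i0 j0 a b hij hab.ne
  let B : Basis (Fin (N + 2)) k (GrS.HK k F 1) := b0.reindex σ
  have hBa : B a = ⟨x, hP.x_mem⟩ := by
    rw [Basis.reindex_apply, ← hσi, Equiv.symm_apply_apply, hbi0]
  have hBb : B b = ⟨y, hP.y_mem⟩ := by
    rw [Basis.reindex_apply, ← hσj, Equiv.symm_apply_apply, hbj0]
  have hcard : (JJ a b).card = N := by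
    rw [JJ, card_erase_of_mem, card_erase_of_mem (mem_univ _), card_univ, Fintype.card_fin]
    · omega
    · exact mem_erase.mpr ⟨hab.ne', mem_univ _⟩
  have htop : ∀ j ∈ JJ a b, j < a := by
    intro j hj
    have h1 := mem_JJ.mp hj
    have h2 : (j : ℕ) ≠ N := fun h3 => by
      apply h1.2
      exact Fin.ext h3
    have h3 : (j : ℕ) ≠ N + 1 := fun h3 => by
      apply h1.1
      exact Fin.ext h3
    rw [Fin.lt_def]
    change (j : ℕ) < N
    have := j.2
    omega
  have hi : N - q - 2 + 1 + (q + 1) = (JJ a b).card := by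
    rw [hcard]
    omega
  apply kDim_of_exact B
  refine dual_main hP hab htop (e := fun l => (B l : F)) (by simp only [hBa]) (by simp only [hBb])
    (fun l => (B l).2) ?_ ?_ q (N - q - 2 + 1) hi (exact_of_kDim B q h)
  · intro u hu
    have h1 : (⟨u, hu⟩ : GrS.HK k F 1) ∈ Submodule.span k (Set.range B) := B.mem_span _
    have h2 := Submodule.mem_map_of_mem (f := (GrS.HK k F 1).subtype) h1
    rw [Submodule.map_span, ← Set.range_comp] at h2
    exact h2
  · intro u hu
    have h1 : u ∈ (Submodule.span k (GrS.omFin k F)) ^ 0 := hu.1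
    rw [pow_zero] at h1
    obtain ⟨c, hc⟩ := Submodule.mem_one.mp h1
    exact ⟨c, hc.symm⟩

end Pool.Agent.GrD
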