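import Mathlib
import Pool.Agent.GrD.Lnk
import Pool.Agent.GrD.StepC

/-!
`K_(g-2,1)(X, ω_X) = 0` implies `K_(0,2)(X, ω_X) = 0`: the quadratic differentials are generated by the products of differentials.
-/

set_option autoImplicit false

namespace Pool.Agent.GrD

open Finset Module Polynomial Pool.Agent.GrC

private lemma Noe_perm {n : ℕ} (i j a b : Fin n) (hij : i ≠ j) (hab : a ≠ b) :
    ∃ σ : Fin n ≃ Fin n, σ i = a ∧ σ j = b := by
  classical
  refine ⟨(Equiv.swap i a).trans (Equiv.swap (Equiv.swap i a j) b), ?_, ?_⟩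
  · rw [Equiv.trans_apply, Equiv.swap_apply_left]
    refine Equiv.swap_apply_of_ne_of_ne ?_ hab
    intro h
    apply hij
    apply (Equiv.swap i a).injective
    rw [Equiv.swap_apply_left, ← h]
  · rw [Equiv.trans_apply, Equiv.swap_apply_left]

theorem noether {k F : Type*} [Field k] [IsAlgClosed k] [Field F] [Algebra k F]
    [Algebra k[X] F] [Algebra (RatFunc k) F] [IsScalarTower k[X] (RatFunc k) F]
    [IsScalarTower k (RatFunc k) F] [IsScalarTower k k[X] F] [FiniteDimensional (RatFunc k) F]
    [Algebra.IsSeparable (RatFunc k) F] (q : ℕ) (hg : GrS.genus k F = q + 3)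
    (h : GrS.kDim k F q 0 = 0) : GrS.HK k F 2 = GrS.HK k F 1 * GrS.HK k F 1 := by
  have hHK : GrS.HK k F = HK k F := GrS.HK_funext
  have hg' : genus k F = q + 3 := by
    rw [← hg, genus, GrS.genus, hHK]
  obtain ⟨x, y, hli, ψ, hP⟩ := exists_pencil (k := k) (F := F) (by omega)
  rw [← hHK] at hP
  have hgen : finrank k (GrS.HK k F 1) = q + 3 := hg
  have : FiniteDimensional k (GrS.HK k F 1) := FiniteDimensional.of_finrank_pos (by omega)
  have hli' : LinearIndependent k ![(⟨x, hP.x_mem⟩ : GrS.HK k F 1), ⟨y, hP.y_mem⟩] := by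
    apply LinearIndependent.of_comp (GrS.HK k F 1).subtype
    convert hli using 1
    funext a
    fin_cases a <;> rfl
  obtain ⟨b0, i0, j0, hij, hbi0, hbj0⟩ := exists_basis_two hgen (by omega) hli'
  let a : Fin (q + 3) := ⟨q + 1, by omega⟩
  let b : Fin (q + 3) := ⟨q + 2, by omega⟩
  have hab : a < b := by
    rw [Fin.lt_def]
    exact Nat.lt_succ_self _
  obtain ⟨σ, hσi, hσj⟩ := Noe_perm i0 j0 a b hij hab.ne
  let B : Basis (Fin (q + 3)) k (GrS.HK k F 1) := b0.reindex σ
  have hBa : B a = ⟨x, hP.x_mem⟩ := by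
    rw [Basis.reindex_apply, ← hσi, Equiv.symm_apply_apply, hbi0]
  have hBb : B b = ⟨y, hP.y_mem⟩ := by
    rw [Basis.reindex_apply, ← hσj, Equiv.symm_apply_apply, hbj0]
  have hcard : (JJ a b).card = q + 1 := by
    rw [JJ, card_erase_of_mem, card_erase_of_mem (mem_univ _), card_univ, Fintype.card_fin]
    · omega
    · exact mem_erase.mpr ⟨hab.ne', mem_univ _⟩
  have htop : ∀ j ∈ JJ a b, j < a := by
    intro j hj
    have h1 := mem_JJ.mp hj
    have h2 : (j : ℕ) ≠ q + 1 := fun h3 => by
      apply h1.2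
      exact Fin.ext h3
    have h3 : (j : ℕ) ≠ q + 2 := fun h3 => by
      apply h1.1
      exact Fin.ext h3
    rw [Fin.lt_def]
    change (j : ℕ) < q + 1
    have := j.2
    omega
  have hmain := dual_main hP hab htop (e := fun l => (B l : F)) (by simp only [hBa])
    (by simp only [hBb]) (fun l => (B l).2)
    (by
      intro u hu
      have h1 : (⟨u, hu⟩ : GrS.HK k F 1) ∈ Submodule.span k (Set.range B) := B.mem_span _
      have h2 := Submodule.mem_map_of_mem (f := (GrS.HK k F 1).subtype) h1
      rw [Submodule.map_span, ← Set.range_comp] at h2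
      exact h2)
    (by
      intro u hu
      have h1 : u ∈ (Submodule.span k (GrS.omFin k F)) ^ 0 := hu.1
      rw [pow_zero] at h1
      obtain ⟨c, hc⟩ := Submodule.mem_one.mp h1
      exact ⟨c, hc.symm⟩) q 0 (by rw [hcard]; omega) (exact_of_kDim B q h)
  apply le_antisymm
  · intro u hu
    have hz : (fun S : Finset (Fin (q + 3)) => if S = ∅ then u else 0) ∈
        Ch (GrS.HK k F) (Fin (q + 3)) 0 2 := by
      refine ⟨fun S => ?_, fun S hS => ?_⟩
      · simp only
        split_ifs
        · exact hu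
        · exact (GrS.HK k F 2).zero_mem
      · simp only
        rw [if_neg]
        intro h1
        rw [h1] at hS
        exact hS card_empty
    have hd : ∀ T, dF univ (fun l => (B l : F))
        (fun S : Finset (Fin (q + 3)) => if S = ∅ then u else 0) T = 0 := by
      intro T
      refine dF_zero (fun j _ => ?_)
      rw [if_neg (insert_ne_empty _ _)]
    obtain ⟨w, hw, hzw⟩ := hmain _ hz hd
    have h1 := hzw ∅
    rw [if_pos rfl] at h1
    rw [h1]
    refine Submodule.sum_mem _ (fun j _ => ?_)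
    have h2 : (B j : F) * w (insert j ∅) ∈ GrS.HK k F 1 * GrS.HK k F 1 :=
      Submodule.mul_mem_mul (B j).2 (hw.1 _)
    rcases neg_one_pow_eq_or F ((∅ : Finset (Fin (q + 3))).filter (· < j)).card with h3 | h3
    · rw [Pool.Agent.GrP.sg, h3, one_mul]
      exact h2
    · rw [Pool.Agent.GrP.sg, h3, neg_one_mul]
      exact Submodule.neg_mem _ h2
  · rw [Submodule.mul_le]
    intro m hm n hn
    exact GrS.HK_mul hm hn

end Pool.Agent.GrD
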